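import Pool.Agent.AlgRec.Light
import Pool.Agent.AlgRec.Heavy

set_option autoImplicit false
open MeasureTheory ProbabilityTheory Pool.Agent.AlgRec

namespace Pool.Agent.Results.MP_aa6ebe_pr.DihedralSum

universe u

/-- `μ` is admissible: symmetric, and its support generates the group. -/
def Admissible {G : Type} [Group G] (μ : PMF G) : Prop :=
  (∀ g : G, μ g = μ g⁻¹) ∧ Subgroup.closure {g | μ g ≠ 0} = ⊤

/-- The product of the first `m` terms of the sequence `s`. -/
def walk {G : Type} [Group G] (s : ℕ → G) : ℕ → G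
  | 0 => 1
  | m + 1 => walk s m * s m

/-- The semigroup generated by the positions `X_n, X_{n+1}, …` of the walk with steps `s`. -/
def semigroupFrom {G : Type} [Group G] (s : ℕ → G) (n : ℕ) : Subsemigroup G :=
  Subsemigroup.closure {g | ∃ m, n ≤ m ∧ g = walk s m}

/-- `ζ 0, ζ 1, …` are i.i.d. random elements of `G` with law `μ` on the probability space
`(Ω, P)` (every subset of `G` is measurable). -/
def IsIID {G : Type} {Ω : Type u} [MeasurableSpace Ω] (P : Measure Ω) (μ : PMF G)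
    (ζ : ℕ → Ω → G) : Prop :=
  letI : MeasurableSpace G := ⊤
  (∀ i, Measurable (ζ i)) ∧ iIndepFun ζ P ∧ ∀ i, P.map (ζ i) = μ.toMeasure

/-- `(G, μ)` is algebraically recurrent: for i.i.d. steps with law `μ` on any probability space,
`S_n = G` almost surely, for each `n ≥ 1`. -/
def AlgebraicallyRecurrent {G : Type} [Group G] (μ : PMF G) : Prop :=
  ∀ (Ω : Type u) [MeasurableSpace Ω] (P : Measure Ω) [IsProbabilityMeasure P] (ζ : ℕ → Ω → G),
    IsIID P μ ζ → ∀ n, 1 ≤ n → ∀ᵐ w ∂P, semigroupFrom (fun i => ζ i w) n = ⊤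

theorem walk_eq (s : ℕ → DS) (m : ℕ) : walk s m = X m s := by
  induction m with
  | zero => rfl
  | succ m ih => rw [X_succ, ← ih]; rfl

theorem semigroupFrom_eq (s : ℕ → DS) (n : ℕ) :
    semigroupFrom s n = Subsemigroup.closure (Set.range (fun k : ℕ => X (n + k) s)) := by
  unfold semigroupFrom
  congr 1
  ext g
  constructor
  · rintro ⟨m, hm, rfl⟩
    exact ⟨m - n, by simp only [walk_eq, Nat.add_sub_cancel' hm]⟩
  · rintro ⟨k, rfl⟩
    exact ⟨n + k, by omega, (walk_eq _ _).symm⟩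

section

variable [MeasurableSpace DS] [DiscreteMeasurableSpace DS]

theorem prob_le : PP muH {ω | Subsemigroup.closure (Set.range (fun k : ℕ => X (1 + k) ω)) = ⊤} ≤
    1 / 4 := by
  have hV : ∀ᵐ ω ∂(PP muH), ∀ i : ℕ, ∃ d, ω i ∈ V d := by
    rw [ae_all_iff]
    intro i
    rw [ae_iff]
    have h1 := PP_cyl muH {i} (fun _ => (⋃ d, V d)ᶜ)
    simp only [Finset.mem_singleton, forall_eq, Finset.prod_singleton] at h1
    rw [muH_compl] at h1
    refine le_antisymm (le_trans (measure_mono ?_) h1.le) bot_le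
    intro ω hω hcon
    obtain ⟨d, hd⟩ := Set.mem_iUnion.mp hcon
    exact hω ⟨d, hd⟩
  have h2 : PP muH {ω | Subsemigroup.closure (Set.range (fun k : ℕ => X (1 + k) ω)) = ⊤} ≤
      PP muH (⋃ d, ⋃ i, ⋃ m, bad d i m) := by
    refine measure_mono_ae ?_
    filter_upwards [hV] with ω hω h
    by_contra hcon
    have hcon' : ∀ d i m, ω ∉ bad d i m := by
      intro d i m hm
      exact hcon (Set.mem_iUnion.2 ⟨d, Set.mem_iUnion.2 ⟨i, Set.mem_iUnion.2 ⟨m, hm⟩⟩⟩)
    exact closure_ne_top hω hcon' h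
  refine (h2.trans bad_total).trans (le_of_eq ?_)
  rw [ENNReal.ofReal_div_of_pos (by norm_num)]
  norm_num

end

theorem joint {Ω : Type u} [MeasurableSpace Ω] {P : Measure Ω} [IsProbabilityMeasure P]
    {μ : PMF DS} {ζ : ℕ → Ω → DS} (h : IsIID P μ ζ) :
    letI : MeasurableSpace DS := ⊤
    Measurable (fun w i => ζ i w) ∧ P.map (fun w i => ζ i w) = PP μ := by
  let _ : MeasurableSpace DS := ⊤
  obtain ⟨h1, h2, h3⟩ := h
  refine ⟨measurable_pi_iff.2 h1, ?_⟩
  rw [h2.map_fun_eq_infinitePi_map h1]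
  simp_rw [h3]

/-- An i.i.d. sequence with law `μ`, in any universe. -/
theorem exists_iid (μ : PMF DS) : ∃ (Ω : Type u) (_ : MeasurableSpace Ω) (P : Measure Ω)
    (_ : IsProbabilityMeasure P) (ζ : ℕ → Ω → DS), IsIID P μ ζ := by
  let _ : MeasurableSpace DS := ⊤
  have hup : Measurable (ULift.up.{u} : (ℕ → DS) → ULift.{u} (ℕ → DS)) := measurable_up
  have hdown : Measurable (ULift.down.{u} : ULift.{u} (ℕ → DS) → (ℕ → DS)) := measurable_down
  have hP : IsProbabilityMeasure ((PP μ).map (ULift.up.{u} : (ℕ → DS) → ULift.{u} (ℕ → DS))) :=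
    Measure.isProbabilityMeasure_map hup.aemeasurable
  have hm : ∀ i, Measurable (fun w : ULift.{u} (ℕ → DS) => w.down i) := fun i =>
    (measurable_pi_apply i).comp hdown
  have hj : ((PP μ).map (ULift.up.{u} : (ℕ → DS) → ULift.{u} (ℕ → DS))).map
      (fun w i => w.down i) = PP μ := by
    rw [Measure.map_map (measurable_pi_iff.2 hm) hup]
    exact Measure.map_id
  have hl : ∀ i, ((PP μ).map (ULift.up.{u} : (ℕ → DS) → ULift.{u} (ℕ → DS))).map
      (fun w => w.down i) = μ.toMeasure := by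
    intro i
    rw [Measure.map_map (hm i) hup]
    exact Measure.infinitePi_map_eval (fun _ : ℕ => μ.toMeasure) i
  refine ⟨ULift.{u} (ℕ → DS), inferInstance, (PP μ).map ULift.up, hP, fun i w => w.down i,
    hm, ?_, hl⟩
  rw [iIndepFun_iff_map_fun_eq_infinitePi_map hm, hj]
  simp_rw [hl]

theorem upper (Ω : Type u) [MeasurableSpace Ω] (P : Measure Ω) [IsProbabilityMeasure P]
    (ζ : ℕ → Ω → DS) (h : IsIID P muH ζ) :
    P {w | semigroupFrom (fun i => ζ i w) 1 = ⊤} ≤ 1 / 4 := by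
  let _ : MeasurableSpace DS := ⊤
  have : DiscreteMeasurableSpace DS := ⟨fun _ => trivial⟩
  obtain ⟨h1, h2⟩ := joint h
  have h3 := prob_le
  set E : Set (ℕ → DS) :=
    {ω | Subsemigroup.closure (Set.range (fun k : ℕ => X (1 + k) ω)) = ⊤} with hE
  calc P {w | semigroupFrom (fun i => ζ i w) 1 = ⊤}
      ≤ P ((fun w i => ζ i w) ⁻¹' toMeasurable (PP muH) E) := by
        refine measure_mono fun w hw => ?_
        refine subset_toMeasurable (PP muH) E ?_
        rw [Set.mem_ofPred_eq, semigroupFrom_eq] at hw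
        exact hw
    _ = PP muH E := by
        rw [← Measure.map_apply h1 (measurableSet_toMeasurable _ _), h2, measure_toMeasurable]
    _ ≤ 1 / 4 := h3

theorem result :
    Countable DS ∧ ∃ μ ν : PMF DS, Admissible μ ∧ Admissible ν ∧
      AlgebraicallyRecurrent.{u} μ ∧ ¬ AlgebraicallyRecurrent.{u} ν ∧
      ∀ (Ω : Type u) [MeasurableSpace Ω] (P : Measure Ω) [IsProbabilityMeasure P]
        (ζ : ℕ → Ω → DS), IsIID P ν ζ →
        P {w | semigroupFrom (fun i => ζ i w) 1 = ⊤} ≤ 1 / 4 := by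
  refine ⟨inferInstance, muL, muH, ⟨fun g => (muL_inv g).symm, muL_gen⟩, ⟨fun g => (muH_inv g).symm, muH_gen⟩,
    ?_, ?_, upper⟩
  · intro Ω _ P _ ζ h n _
    let _ : MeasurableSpace DS := ⊤
    have : DiscreteMeasurableSpace DS := ⟨fun _ => trivial⟩
    obtain ⟨h1, h2⟩ := joint h
    have h3 := muL_AR n
    rw [← h2] at h3
    filter_upwards [ae_of_ae_map h1.aemeasurable h3] with w hw
    rw [semigroupFrom_eq]
    exact hw
  · intro hAR
    obtain ⟨Ω, _, P, _, ζ, h⟩ := exists_iid.{u} muH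
    have h1 := upper Ω P ζ h
    have h2 : P {w | semigroupFrom (fun i => ζ i w) 1 = ⊤} = 1 :=
      (measure_congr (Filter.eventuallyEq_univ.2 (hAR Ω P ζ h 1 le_rfl))).trans measure_univ
    rw [h2] at h1
    exact absurd h1 (by norm_num)

end Pool.Agent.Results.MP_aa6ebe_pr.DihedralSum
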